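import Pool.Agent.Run7.h852.CO.PerFin

/-!
# Zero angular momentum: period and size are bounded by the number of eclipses

A reduced periodic solution of the planar three-body problem with angular momentum zero and energy `-h`
that has at most `n` eclipses in a period has a period of at most `n π √(2 P³ / (μ h³))`, where `μ` is a
lower bound of the masses and `P = m₁m₂ + m₁m₃ + m₂m₃`, and stays within the distance `C n` of the centre
of mass, `C` depends only on the masses and `h`.

The period: let `A` be twice the signed area of the triangle and `S = ∑_{i<j} (m_i + m_j) / r_ij³`. Where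
`A ≠ 0` and the angular momentum is zero, `(log |A|)'' + ((log |A|)')² / 2 ≤ - S`, and
`S ≥ 2 μ h³ / P³`, since the shortest side is at most `P / h`. So `|A|^(1/2)` satisfies Sturm's comparison
inequality.

The size: let `t` be the time at which the largest of the distances `|Y_k|` of a body from the centre of
mass of the two others is the smallest. If this is large then the triple is hierarchical, the inner
angular momentum is bounded, thus the outer speed is small and the attraction wins: the outer
distance cannot have a minimum there. So the moment of inertia `I` is bounded at some time; and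
`I'' ≥ - 4 h` and periodicity give `max I ≤ min I + 2 h T²`.

The three lemmas of calculus in `Osc` are by helper312.
-/

set_option autoImplicit false

namespace Pool.Agent.Results.MP_39d7ff_an.PeriodAndSize

/-- The plane. -/
abbrev Plane : Type := EuclideanSpace ℝ (Fin 2)

/-- `a × b` in the plane. -/
def cross (a b : Plane) : ℝ := a 0 * b 1 - a 1 * b 0

/-- The potential `U = ∑_{i<j} m_i m_j / |q_i - q_j|` (the double sum counts each pair twice; its
diagonal terms are zero). -/
noncomputable def potential (m : Fin 3 → ℝ) (q : Fin 3 → Plane) : ℝ :=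
  ∑ i, ∑ j, m i * m j / ‖q i - q j‖ / 2

/-- A collision-free solution of the planar three-body problem for all times, with the positions `x`,
the velocities `v`, the centre of mass at the origin, angular momentum zero and energy `-h`, that is
periodic modulo rotations with the period `T > 0`. -/
structure IsReducedPeriodic (m : Fin 3 → ℝ) (h : ℝ) (x v : ℝ → Fin 3 → Plane) (T : ℝ) : Prop where
  free : ∀ t i j, i ≠ j → x t i ≠ x t j
  velocity : ∀ t i, HasDerivAt (fun s => x s i) (v t i) t
  newton : ∀ t i, HasDerivAt (fun s => v s i)
    (∑ j, (m j / ‖x t j - x t i‖ ^ 3) • (x t j - x t i)) t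
  centred : ∀ t, ∑ i, m i • x t i = 0
  angular : ∀ t, ∑ i, m i * cross (x t i) (v t i) = 0
  energy : ∀ t, ∑ i, m i * ‖v t i‖ ^ 2 / 2 - potential m (x t) = -h
  pos : 0 < T
  periodic : ∃ R : Plane ≃ₗᵢ[ℝ] Plane, ∀ t i, x (t + T) i = R (x t i)

/-- The eclipses (collinear instants) in the period `[0, T)`. -/
def eclipses (x : ℝ → Fin 3 → Plane) (T : ℝ) : Set ℝ :=
  {t | t ∈ Set.Ico 0 T ∧ Collinear ℝ (Set.range (x t))}

/-- Let the masses be at least `μ > 0` and let `h > 0`. There is a constant `C` such that every reduced
periodic solution with angular momentum zero and energy `-h` that has at most `n` eclipses in one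
period satisfies `T ≤ n π √(2 P³ / (μ h³))`, `P = m_0 m_1 + m_0 m_2 + m_1 m_2`, and
`|x_i(t)| ≤ C n` for all `t` and `i`. -/
theorem result (m : Fin 3 → ℝ) (μ : ℝ) (hμ : 0 < μ) (hm : ∀ i, μ ≤ m i) (h : ℝ) (hh : 0 < h) :
    ∃ C : ℝ, ∀ (x v : ℝ → Fin 3 → Plane) (T : ℝ), IsReducedPeriodic m h x v T →
      ∀ n : ℕ, (eclipses x T).encard ≤ n →
        T ≤ n * (Real.pi * √(2 * (m 0 * m 1 + m 0 * m 2 + m 1 * m 2) ^ 3 / (μ * h ^ 3))) ∧
        ∀ t i, ‖x t i‖ ≤ C * n := by
  obtain ⟨C, hC⟩ := Run7.h852.CO.Per.final (m := m) (fun i => lt_of_lt_of_le hμ (hm i)) hμ hm hh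
  refine ⟨C, fun x v T hs n hn => ?_⟩
  exact hC x v ⟨fun t _ => hs.free t, fun t _ => hs.velocity t, fun t _ => hs.newton t⟩
    hs.centred hs.angular hs.energy T hs.pos hs.periodic n hn

end Pool.Agent.Results.MP_39d7ff_an.PeriodAndSize
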